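import Mathlib
import Pool.Agent.H.MP_9cf723_co.A

set_option autoImplicit false
set_option linter.unusedSectionVars false

namespace Pool.Agent.Results.MP_9cf723_co.Cone

open Finset Module MvPolynomial Pool.Agent.H.MP_9cf723_co

/-- real polynomials in three variables -/
abbrev R := MvPolynomial (Fin 3) ℝ
/-- points of three-space -/
abbrev Pt := Fin 3 → ℝ

variable {W : Type} [Fintype W] [LinearOrder W]

/-- affine forms vanishing at the points of `ψ` -/
def I1 (p : W → Pt) (ψ : Finset W) : Set R :=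
  {l | (∃ (a : Fin 3 → ℝ) (d : ℝ), l = ∑ i, C (a i) * X i + C d) ∧ ∀ v ∈ ψ, eval (p v) l = 0}

/-- the coefficient space `I^s_ψ`, with `I^s_∅ = P_s` -/
noncomputable def I (s : ℕ) (p : W → Pt) (ψ : Finset W) : Submodule ℝ R :=
  if ψ = ∅ then restrictTotalDegree (Fin 3) ℝ s else Submodule.span ℝ ((· ^ s) '' I1 p ψ)

/-- a simplicial complex of dimension at most two (the empty face included) -/
def IsCx (K : Set (Finset W)) : Prop :=
  ∅ ∈ K ∧ (∀ ψ ∈ K, ψ.card ≤ 3) ∧ ∀ ψ ∈ K, ∀ θ ⊆ ψ, θ ∈ K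

/-- the truncated cone -/
def cone (w : W) (K : Set (Finset W)) : Set (Finset W) :=
  K ∪ {θ | ∃ ψ ∈ K, ψ.card ≤ 2 ∧ θ = insert w ψ}

open Classical in
/-- chains on the faces with `k` vertices (homological degree `k - 1`) -/
noncomputable def Ch (s : ℕ) (p : W → Pt) (K : Set (Finset W)) (k : ℕ) :
    Submodule ℝ (Finset W → R) :=
  Submodule.pi Set.univ fun ψ => if ψ ∈ K ∧ ψ.card = k then I s p ψ else ⊥

/-- incidence number of `θ` and `insert v θ` -/
def sg (v : W) (θ : Finset W) : ℝ := (-1) ^ (θ.filter (· < v)).card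

/-- the boundary map -/
noncomputable def bd : (Finset W → R) →ₗ[ℝ] (Finset W → R) :=
  LinearMap.pi fun θ => ∑ v ∈ θᶜ, sg v θ • LinearMap.proj (insert v θ)

/-- cycles -/
noncomputable def Cyc (s : ℕ) (p : W → Pt) (K : Set (Finset W)) (k : ℕ) :
    Submodule ℝ (Finset W → R) := Ch s p K k ⊓ LinearMap.ker bd

/-- boundaries, inside the cycles -/
noncomputable def Bdy (s : ℕ) (p : W → Pt) (K : Set (Finset W)) (k : ℕ) :
    Submodule ℝ (Cyc s p K k) := ((Ch s p K (k + 1)).map bd).submoduleOf (Cyc s p K k)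

/-- Betti number in homological degree `k - 1` -/
noncomputable def betti (s : ℕ) (p : W → Pt) (K : Set (Finset W)) (k : ℕ) : ℕ :=
  finrank ℝ (Cyc s p K k ⧸ Bdy s p K k)

/-- every 2-simplex is placed at affinely independent points -/
def Nondeg (p : W → Pt) (K : Set (Finset W)) : Prop :=
  ∀ σ ∈ K, σ.card = 3 → AffineIndependent ℝ (fun v : σ => p v)

/-- `p w` lies in no proper affine subspace spanned by positions of vertices of `K` -/
def Gen (p : W → Pt) (K : Set (Finset W)) (w : W) : Prop :=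
  ∀ S : Set W, (∀ v ∈ S, {v} ∈ K) → affineSpan ℝ (p '' S) ≠ ⊤ → p w ∉ affineSpan ℝ (p '' S)

lemma bd_apply (c : Finset W → R) (θ : Finset W) :
    bd c θ = ∑ v ∈ θᶜ, sg v θ • c (insert v θ) := by
  simp [bd, LinearMap.sum_apply]

lemma sg_insert {u v : W} {θ : Finset W} (h : u ∉ θ) :
    sg v (insert u θ) = (if u < v then -1 else 1) * sg v θ := by
  unfold sg
  rw [filter_insert]
  split_ifs with h1
  · rw [card_insert_of_notMem (by simp [h]), pow_succ]; ring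
  · simp

lemma sg_sq (v : W) (θ : Finset W) : sg v θ * sg v θ = 1 := by
  unfold sg; rw [← mul_pow]; simp

lemma sg_swap {u v : W} {θ : Finset W} (hu : u ∉ θ) (hv : v ∉ θ) (h : u ≠ v) :
    sg v θ * sg u (insert v θ) = -(sg u θ * sg v (insert u θ)) := by
  rw [sg_insert hu, sg_insert hv]
  rcases lt_or_gt_of_ne h with h1 | h1 <;> simp [h1, h1.not_gt, mul_comm]

lemma bd_bd (c : Finset W → R) : bd (bd c) = 0 := by
  funext θ
  let F : W → W → R := fun v u => if u ≠ v then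
    (sg v θ * sg u (insert v θ)) • c (insert u (insert v θ)) else 0
  have h1 : bd (bd c) θ = ∑ v ∈ θᶜ, ∑ u ∈ θᶜ, F v u := by
    rw [bd_apply]
    refine sum_congr rfl fun v _ => ?_
    rw [bd_apply, smul_sum, ← sum_filter]
    refine sum_congr (by ext; simp [and_comm]) fun u _ => by rw [smul_smul]
  have h2 : ∑ v ∈ θᶜ, ∑ u ∈ θᶜ, F v u = -∑ v ∈ θᶜ, ∑ u ∈ θᶜ, F v u := by
    conv_rhs => rw [sum_comm, ← sum_neg_distrib]
    refine sum_congr rfl fun v hv => ?_
    rw [← sum_neg_distrib]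
    refine sum_congr rfl fun u hu => ?_
    by_cases h : u = v
    · simp [F, h]
    · simp only [F, ne_eq, h, Ne.symm h, not_false_eq_true, if_true]
      rw [sg_swap (mem_compl.1 hu) (mem_compl.1 hv) h, insert_comm, neg_smul]
  rw [h1]
  exact self_eq_neg.1 h2

/-- cone homotopy -/
noncomputable def hm (w : W) (c : Finset W → R) : Finset W → R :=
  fun θ => if w ∈ θ then sg w θ • c (θ.erase w) else 0

lemma homot (w : W) (c : Finset W → R) : bd (hm w c) + hm w (bd c) = c := by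
  funext θ
  rw [Pi.add_apply, bd_apply]
  by_cases h : w ∈ θ
  · obtain ⟨τ, hτ, rfl⟩ : ∃ τ, w ∉ τ ∧ θ = insert w τ :=
      ⟨θ.erase w, notMem_erase _ _, (insert_erase h).symm⟩
    have e : sg w (insert w τ) = sg w τ := by rw [sg_insert hτ]; simp
    simp only [hm, h, if_true, erase_insert hτ, bd_apply, e]
    rw [← add_sum_erase _ _ (mem_compl.2 hτ), smul_add, smul_smul, sg_sq, one_smul, smul_sum,
      compl_insert, add_left_comm, ← sum_add_distrib, sum_eq_zero, add_zero]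
    intro v hv
    have hv1 : v ≠ w := ne_of_mem_erase hv
    have hv2 : v ∉ τ := mem_compl.1 (mem_of_mem_erase hv)
    rw [if_pos (by simp), insert_comm, erase_insert (by simp [hτ, hv1.symm]), smul_smul, smul_smul,
      ← add_smul, sg_insert (u := w) (θ := insert v τ) (by simp [hτ, hv1.symm]), sg_insert hτ,
      sg_insert hv2]
    rcases lt_or_gt_of_ne hv1 with h1 | h1 <;> simp [h1, h1.not_gt, mul_comm]
  · simp only [hm, h, if_false, add_zero]
    rw [sum_eq_single w]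
    · rw [if_pos (by simp), erase_insert h, sg_insert h, smul_smul]; simp [sg_sq]
    · intro v _ hv
      rw [if_neg (by simp [h, hv.symm]), smul_zero]
    · simp [h]

/-- the space of affine forms vanishing on `ψ` -/
def U (p : W → Pt) (ψ : Finset W) : Submodule ℝ R where
  carrier := I1 p ψ
  add_mem' := by
    rintro _ _ ⟨⟨a, d, rfl⟩, h⟩ ⟨⟨a', d', rfl⟩, h'⟩
    refine ⟨⟨a + a', d + d', ?_⟩, fun v hv => by rw [map_add, h v hv, h' v hv, add_zero]⟩
    simp only [Pi.add_apply, map_add, add_mul, sum_add_distrib]; ring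
  zero_mem' := ⟨⟨0, 0, by simp⟩, by simp⟩
  smul_mem' := by
    rintro t _ ⟨⟨a, d, rfl⟩, h⟩
    refine ⟨⟨t • a, t * d, ?_⟩, fun v hv => by rw [smul_eval, h v hv, mul_zero]⟩
    simp only [smul_eq_C_mul, Pi.smul_apply, smul_eq_mul, map_mul, mul_add, mul_sum, mul_assoc]

omit [Fintype W] [LinearOrder W] in
lemma U_mono (p : W → Pt) {θ ψ : Finset W} (h : θ ⊆ ψ) : U p ψ ≤ U p θ :=
  fun _ hl => ⟨hl.1, fun v hv => hl.2 v (h hv)⟩

omit [Fintype W] [LinearOrder W] in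
lemma U_empty (p : W → Pt) (s : ℕ) : restrictTotalDegree (Fin 3) ℝ s = U p ∅ ^ s := by
  apply le_antisymm
  · intro f hf
    rw [mem_restrictTotalDegree] at hf
    rw [f.as_sum]
    refine Submodule.sum_mem _ fun d hd => ?_
    have h1 := (le_totalDegree hd).trans hf
    rw [Finsupp.sum_fintype _ _ (by simp), Fin.sum_univ_three] at h1
    have hX : ∀ i, X i ∈ U p ∅ := fun i => ⟨⟨Pi.single i 1, 0, by
      rw [sum_eq_single i] <;> simp +contextual⟩, by simp⟩
    have h0 : (1 : R) ∈ U p ∅ := ⟨⟨0, 1, by simp⟩, by simp⟩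
    have : U p ∅ ^ s = U p ∅ ^ d 0 * U p ∅ ^ d 1 * U p ∅ ^ d 2 * U p ∅ ^ (s - (d 0 + d 1 + d 2)) := by
      rw [← pow_add, ← pow_add, ← pow_add]; congr 1; omega
    rw [this, monomial_eq, Finsupp.prod_fintype _ _ (by simp), Fin.prod_univ_three,
      ← smul_eq_C_mul]
    refine Submodule.smul_mem _ _ ?_
    have := Submodule.mul_mem_mul (Submodule.mul_mem_mul (Submodule.mul_mem_mul
      (Submodule.pow_mem_pow _ (hX 0) (d 0)) (Submodule.pow_mem_pow _ (hX 1) (d 1)))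
      (Submodule.pow_mem_pow _ (hX 2) (d 2))) (Submodule.pow_mem_pow _ h0 (s - (d 0 + d 1 + d 2)))
    simpa using this
  · rw [pow_eq, Submodule.span_le]
    rintro _ ⟨_, ⟨⟨a, d, rfl⟩, -⟩, rfl⟩
    simp only [SetLike.mem_coe, mem_restrictTotalDegree]
    refine (totalDegree_pow _ _).trans (mul_le_of_le_one_right' ?_)
    refine (totalDegree_add _ _).trans (max_le (totalDegree_finsetSum_le fun i _ => ?_) (by simp))
    exact (totalDegree_mul _ _).trans (by simp)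

omit [Fintype W] in
lemma I_eq (s : ℕ) (p : W → Pt) (ψ : Finset W) : I s p ψ = U p ψ ^ s := by
  unfold I
  split_ifs with h
  · rw [h, U_empty p]
  · exact (pow_eq (U p ψ) s).symm

lemma mem_Ch {s : ℕ} {p : W → Pt} {K : Set (Finset W)} {k : ℕ} {c : Finset W → R} :
    c ∈ Ch s p K k ↔ ∀ ψ, c ψ ∈ U p ψ ^ s ∧ (¬ (ψ ∈ K ∧ ψ.card = k) → c ψ = 0) := by
  simp only [Ch, Submodule.mem_pi, Set.mem_univ, true_imp_iff]
  refine forall_congr' fun ψ => ?_
  split_ifs with h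
  · simp [h, I_eq]
  · simp only [Submodule.mem_bot, h, not_false_eq_true, true_imp_iff]
    exact ⟨fun h => ⟨h ▸ Submodule.zero_mem _, h⟩, fun h => h.2⟩

instance fin_Ch (s : ℕ) (p : W → Pt) (K : Set (Finset W)) (k : ℕ) : Module.Finite ℝ (Ch s p K k) := by
  have h : (Submodule.pi Set.univ fun _ : Finset W => restrictTotalDegree (Fin 3) ℝ s).FG :=
    Submodule.fg_pi fun _ => Module.Finite.iff_fg.1 inferInstance
  have := Module.Finite.iff_fg.2 h
  refine Submodule.finiteDimensional_of_le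
    (S₂ := Submodule.pi Set.univ fun _ : Finset W => restrictTotalDegree (Fin 3) ℝ s) ?_
  intro c hc ψ _
  rw [U_empty p]
  exact pow_le_pow_left' (U_mono p (empty_subset ψ)) s (mem_Ch.1 hc ψ).1

lemma bd_mem {s : ℕ} {p : W → Pt} {K : Set (Finset W)} (hK : ∀ ψ ∈ K, ∀ θ ⊆ ψ, θ ∈ K) {k : ℕ}
    {c : Finset W → R} (hc : c ∈ Ch s p K (k + 1)) : bd c ∈ Ch s p K k := by
  rw [mem_Ch] at *
  intro θ
  rw [bd_apply]
  refine ⟨Submodule.sum_mem _ fun v _ => Submodule.smul_mem _ _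
    (pow_le_pow_left' (U_mono p (subset_insert v θ)) s (hc _).1), fun h => sum_eq_zero fun v hv => ?_⟩
  rw [(hc _).2, smul_zero]
  rintro ⟨h1, h2⟩
  rw [card_insert_of_notMem (mem_compl.1 hv)] at h2
  exact h ⟨hK _ h1 _ (subset_insert v θ), by omega⟩

lemma bd_zero {s : ℕ} {p : W → Pt} {K : Set (Finset W)} {c : Finset W → R}
    (hc : c ∈ Ch s p K 0) : bd c = 0 := by
  funext θ
  rw [bd_apply]
  refine sum_eq_zero fun v _ => ?_
  rw [(mem_Ch.1 hc _).2 (by simp), smul_zero]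

/-- evaluation at a point -/
noncomputable def ev (x : Pt) : R →ₗ[ℝ] ℝ := (aeval x : R →ₐ[ℝ] ℝ).toLinearMap

lemma ev_apply (x : Pt) (l : R) : ev x l = eval x l := by simp [ev]

/-- Euler derivation centred at a point -/
noncomputable def Eu (x : Pt) : Derivation ℝ R R := mkDerivation ℝ fun i => C (x i) - X i

lemma hE (p : W → Pt) (ψ : Finset W) (x : Pt) : ∀ l ∈ U p ψ, Eu x l = ev x l • (1 : R) - l := by
  rintro _ ⟨⟨a, d, rfl⟩, -⟩
  have h : ∀ t : ℝ, Eu x (C t) = 0 := fun t => (Eu x).map_algebraMap t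
  simp only [ev_apply, map_add, Derivation.leibniz, h, add_zero, map_mul,
    eval_C, eval_X, smul_eq_C_mul, smul_eq_mul, Fin.sum_univ_three]
  simp only [Eu, mkDerivation_X]
  ring

lemma U_insert (p : W → Pt) (ψ : Finset W) (w : W) :
    U p (insert w ψ) = U p ψ ⊓ LinearMap.ker (ev (p w)) := by
  ext l
  simp only [Submodule.mem_inf, LinearMap.mem_ker, ev_apply]
  exact ⟨fun h => ⟨⟨h.1, fun v hv => h.2 v (mem_insert_of_mem hv)⟩, h.2 w (mem_insert_self _ _)⟩,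
    fun h => ⟨h.1.1, fun v hv => (mem_insert.1 hv).elim (fun e => e ▸ h.2) (h.1.2 v)⟩⟩

lemma aff_ex (p : W → Pt) (f : Pt →ₗ[ℝ] ℝ) (d : ℝ) :
    ∃ l ∈ U p ∅, ∀ x, eval x l = f x + d := by
  refine ⟨_, ⟨⟨fun i => f (Pi.single i 1), d, rfl⟩, by simp⟩, fun x => ?_⟩
  rw [f.pi_apply_eq_sum_univ x]
  simp only [map_add, map_sum, map_mul, eval_C, eval_X, smul_eq_mul, mul_comm]
  congr 2; funext i; congr 2; funext j; simp [Pi.single_apply, eq_comm]

lemma ex_aff {p : W → Pt} {ψ : Finset W} {l : R} (h : l ∈ U p ψ) :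
    ∃ (f : Pt →ₗ[ℝ] ℝ) (d : ℝ), ∀ x, eval x l = f x + d := by
  obtain ⟨⟨a, d, rfl⟩, -⟩ := h
  exact ⟨∑ i, a i • LinearMap.proj i, d, fun x => by simp [LinearMap.sum_apply]⟩

lemma rk_le (p : W → Pt) {ψ : Finset W} (h : ψ.card ≤ 3) :
    finrank ℝ (vectorSpan ℝ (p '' ψ)) ≤ 2 := by
  classical
  rcases ψ.eq_empty_or_nonempty with rfl | h1
  · rw [coe_empty, Set.image_empty, vectorSpan_empty, finrank_bot]; omega
  · have := finrank_vectorSpan_image_finset_le ℝ p ψ (n := ψ.card - 1)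
      (by have := h1.card_pos; omega)
    rw [coe_image] at this
    omega

lemma notin {p : W → Pt} {K : Set (Finset W)} {w : W} (hK : IsCx K) (hg : Gen p K w)
    {ψ : Finset W} (h : ψ ∈ K) : p w ∉ affineSpan ℝ (p '' ψ) := by
  refine hg _ (fun v hv => hK.2.2 _ h _ (by simpa using hv)) fun e => ?_
  have := rk_le p (hK.2.1 _ h)
  rw [← direction_affineSpan, e, AffineSubspace.direction_top] at this
  simp at this

lemma notin' {p : W → Pt} {w v : W} {ψ : Finset W} (h : p w ∉ affineSpan ℝ (p '' ψ))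
    (hv : v ∈ ψ) : p w - p v ∉ vectorSpan ℝ (p '' ψ) := by
  rw [← direction_affineSpan, ← vsub_eq_sub, AffineSubspace.vsub_right_mem_direction_iff_mem
    (mem_affineSpan ℝ (Set.mem_image_of_mem p hv))]
  exact h

lemma vs {p : W → Pt} {u v : W} {ψ : Finset W} (hu : u ∈ ψ) (hv : v ∈ ψ) :
    p u - p v ∈ vectorSpan ℝ (p '' ψ) :=
  vsub_mem_vectorSpan ℝ (Set.mem_image_of_mem p hu) (Set.mem_image_of_mem p hv)

lemma ex0 {p : W → Pt} {w : W} {ψ : Finset W} (h : p w ∉ affineSpan ℝ (p '' ψ)) :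
    ∃ l ∈ U p ψ, ev (p w) l = 1 := by
  rcases ψ.eq_empty_or_nonempty with rfl | ⟨v, hv⟩
  · exact ⟨1, ⟨⟨0, 1, by simp⟩, by simp⟩, by simp [ev_apply]⟩
  · obtain ⟨f, h1, h2⟩ := Submodule.exists_le_ker_of_notMem (notin' h hv)
    obtain ⟨l, hl, e⟩ := aff_ex p f (-f (p v))
    refine ⟨(f (p w - p v))⁻¹ • l, Submodule.smul_mem _ _ ⟨hl.1, fun u hu => ?_⟩, ?_⟩
    · rw [e, ← sub_eq_add_neg, ← map_sub]; exact h2 (vs hu hv)
    · rw [map_smul, ev_apply, e, ← sub_eq_add_neg, ← map_sub, smul_eq_mul, inv_mul_cancel₀ h1]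

lemma ai_iff (p : W → Pt) {ψ : Finset W} (h : ψ.card = 3) :
    AffineIndependent ℝ (fun v : ψ => p v) ↔ 2 ≤ finrank ℝ (vectorSpan ℝ (p '' ψ)) := by
  rw [affineIndependent_iff_le_finrank_vectorSpan ℝ _ (n := 2) (by simp [h]),
    Set.image_eq_range]
  rfl

lemma bot_iff {p : W → Pt} {w : W} {ψ : Finset W} (h : p w ∉ affineSpan ℝ (p '' ψ))
    (h3 : ψ.card = 3) : U p (insert w ψ) = ⊥ ↔ AffineIndependent ℝ (fun v : ψ => p v) := by
  obtain ⟨v, hv⟩ : ψ.Nonempty := card_pos.1 (by omega)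
  rw [ai_iff p h3]
  have hr := Submodule.finrank_sup_span_singleton (notin' h hv)
  constructor
  · intro hb
    by_contra hc
    obtain ⟨f, h1, h2⟩ := Submodule.exists_le_ker_of_lt_top
      (vectorSpan ℝ (p '' ψ) ⊔ Submodule.span ℝ {p w - p v})
      (Submodule.lt_top_of_finrank_lt_finrank (by
        rw [hr, finrank_fin_fun]; exact Nat.succ_lt_succ (not_le.1 hc)))
    obtain ⟨l, hl, e⟩ := aff_ex p f (-f (p v))
    have : l ∈ U p (insert w ψ) := ⟨hl.1, fun u hu => by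
      rw [e, ← sub_eq_add_neg, ← map_sub]
      rcases mem_insert.1 hu with rfl | hu
      · exact h2 (Submodule.mem_sup_right (Submodule.mem_span_singleton_self _))
      · exact h2 (Submodule.mem_sup_left (vs hu hv))⟩
    rw [hb, Submodule.mem_bot] at this
    apply h1
    refine LinearMap.ext fun x => ?_
    have e1 := e x
    have e2 := e 0
    simp only [this, map_zero] at e1 e2
    simp only [LinearMap.zero_apply]; linarith
  · intro h2
    rw [eq_bot_iff]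
    intro l hl
    obtain ⟨f, d, e⟩ := ex_aff hl
    have h0 := hl.2 v (mem_insert_of_mem hv)
    have ht : vectorSpan ℝ (p '' ψ) ⊔ Submodule.span ℝ {p w - p v} = ⊤ :=
      Submodule.eq_top_of_finrank_eq (le_antisymm (Submodule.finrank_le _)
        (by rw [hr]; simp; omega))
    have hk : ∀ u ∈ insert w ψ, f (p u - p v) = 0 := fun u hu => by
      have := hl.2 u hu
      rw [e] at this h0
      rw [map_sub]; linarith
    have hf : ⊤ ≤ LinearMap.ker f := by
      rw [← ht, vectorSpan_eq_span_vsub_set_right ℝ (Set.mem_image_of_mem p hv), sup_le_iff,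
        Submodule.span_le, Submodule.span_le]
      refine ⟨?_, by simpa using hk w (mem_insert_self _ _)⟩
      rintro _ ⟨_, ⟨u, hu, rfl⟩, rfl⟩
      exact hk u (mem_insert_of_mem hu)
    have hf' : ∀ x, f x = 0 := fun x => hf Submodule.mem_top
    rw [e, hf'] at h0
    rw [Submodule.mem_bot]
    exact MvPolynomial.funext fun x => by rw [e, hf', h0, map_zero]

/-- the comparison chain map -/
noncomputable def Ph (s : ℕ) (p : W → Pt) (w : W) : (Finset W → R) →ₗ[ℝ] (Finset W → R) :=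
  LinearMap.pi fun ψ => if w ∈ ψ then 0 else D (Eu (p w)) (s + 1) ∘ₗ LinearMap.proj ψ

lemma Ph_apply (s : ℕ) (p : W → Pt) (w : W) (c : Finset W → R) (ψ : Finset W) :
    Ph s p w c ψ = if w ∈ ψ then 0 else D (Eu (p w)) (s + 1) (c ψ) := by
  simp only [Ph, LinearMap.pi_apply]; split_ifs <;> simp

section main
variable {s : ℕ} {p : W → Pt} {K : Set (Finset W)} {w : W}

lemma cone_cl (hK : IsCx K) : ∀ ψ ∈ cone w K, ∀ θ ⊆ ψ, θ ∈ cone w K := by
  rintro ψ (h | ⟨τ, h, h2, rfl⟩) θ hθ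
  · exact Or.inl (hK.2.2 _ h _ hθ)
  · by_cases e : w ∈ θ
    · have := subset_insert_iff.1 hθ
      exact Or.inr ⟨θ.erase w, hK.2.2 _ h _ this, (card_le_card this).trans h2,
        (insert_erase e).symm⟩
    · exact Or.inl (hK.2.2 _ h _ ((subset_insert_iff_of_notMem e).1 hθ))

lemma cone_iff {ψ : Finset W} (h : w ∉ ψ) : ψ ∈ cone w K ↔ ψ ∈ K :=
  ⟨fun h1 => h1.elim id fun ⟨_, _, _, e⟩ => absurd (e ▸ mem_insert_self _ _) h, Or.inl⟩

lemma F1 {k : ℕ} {c : Finset W → R} (hc : c ∈ Ch (s + 1) p (cone w K) k) :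
    Ph s p w c ∈ Ch s p K k := by
  rw [mem_Ch] at *
  intro ψ
  rw [Ph_apply]
  split_ifs with h
  · simp
  · exact ⟨D_mem (hE p ψ _) _ (hc ψ).1, fun h1 => by
      rw [(hc ψ).2 (by rwa [cone_iff h]), map_zero]⟩

lemma F2 (hK : IsCx K) (hw : ∀ ψ ∈ K, w ∉ ψ) (hg : Gen p K w) {k : ℕ} {z : Finset W → R}
    (hz : z ∈ Ch s p K k) : ∃ c ∈ Ch (s + 1) p (cone w K) k, Ph s p w c = z := by
  rw [mem_Ch] at hz
  have : ∀ ψ, ∃ f, (f ∈ U p ψ ^ (s + 1) ∧ (¬ (ψ ∈ cone w K ∧ ψ.card = k) → f = 0)) ∧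
      (if w ∈ ψ then 0 else D (Eu (p w)) (s + 1) f) = z ψ := by
    intro ψ
    by_cases h : ψ ∈ K ∧ ψ.card = k
    · obtain ⟨l, h1, h2⟩ := ex0 (notin hK hg h.1)
      obtain ⟨f, h3, h4⟩ := D_surj (hE p ψ _) h1 h2 s (hz ψ).1
      exact ⟨f, ⟨h3, fun e => absurd ⟨Or.inl h.1, h.2⟩ e⟩, by rw [if_neg (hw _ h.1), h4]⟩
    · exact ⟨0, by simp, by simp [(hz ψ).2 h]⟩
  choose c h1 h2 using this
  exact ⟨c, mem_Ch.2 h1, funext fun ψ => by rw [Ph_apply, h2]⟩

lemma F3 {k : ℕ} {c : Finset W → R} (hc : c ∈ Ch (s + 1) p (cone w K) k) :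
    bd (Ph s p w c) = Ph s p w (bd c) := by
  funext θ
  simp only [bd_apply, Ph_apply]
  split_ifs with h
  · exact sum_eq_zero fun v _ => by simp [h]
  · rw [map_sum]
    refine sum_congr rfl fun v _ => ?_
    rw [map_smul]
    split_ifs with h1
    · obtain rfl : w = v := by simpa [h] using h1
      rw [D_zero (U := U p θ) (hE p θ _) _ (by rw [← U_insert]; exact (mem_Ch.1 hc _).1)]
    · rfl

lemma Ph_hm (c : Finset W → R) : Ph s p w (hm w c) = 0 := by
  funext θ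
  rw [Ph_apply]
  split_ifs with h <;> simp [hm, h]

lemma kerU (hK : IsCx K) (hg : Gen p K w) {k : ℕ} {c : Finset W → R}
    (hc : c ∈ Ch (s + 1) p (cone w K) k) (h0 : Ph s p w c = 0) {τ : Finset W} (hτ : w ∉ τ) :
    c τ ∈ U p (insert w τ) ^ (s + 1) := by
  by_cases h : τ ∈ K
  · obtain ⟨l, h1, h2⟩ := ex0 (notin hK hg h)
    have := congrFun h0 τ
    rw [Ph_apply, if_neg hτ] at this
    rw [U_insert]
    exact D_ker (hE p τ _) h1 h2 s (mem_Ch.1 hc τ).1 this
  · rw [(mem_Ch.1 hc τ).2 (by simp [cone_iff hτ, h])]; simp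

lemma F5 (hK : IsCx K) (hg : Gen p K w) {k : ℕ}
    (hk : k ≤ 2 ∨ ∀ σ ∈ K, σ.card = 3 → AffineIndependent ℝ (fun v : σ => p v))
    {c : Finset W → R} (hc : c ∈ Ch (s + 1) p (cone w K) k) (h0 : Ph s p w c = 0) :
    hm w c ∈ Ch (s + 1) p (cone w K) (k + 1) := by
  rw [mem_Ch]
  intro θ
  unfold hm
  split_ifs with h
  · obtain ⟨τ, hτ, rfl⟩ : ∃ τ, w ∉ τ ∧ θ = insert w τ :=
      ⟨θ.erase w, notMem_erase _ _, (insert_erase h).symm⟩
    rw [erase_insert hτ]
    have h1 := kerU hK hg hc h0 hτ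
    refine ⟨Submodule.smul_mem _ _ h1, fun h2 => ?_⟩
    rw [show c τ = 0 from ?_, smul_zero]
    by_contra h3
    have h4 : τ ∈ cone w K ∧ τ.card = k := by_contra fun e => h3 ((mem_Ch.1 hc τ).2 e)
    rw [cone_iff hτ] at h4
    rw [card_insert_of_notMem hτ] at h2
    have h5 : ¬ τ.card ≤ 2 := fun e => h2 ⟨Or.inr ⟨τ, h4.1, e, rfl⟩, by omega⟩
    have h6 := hK.2.1 _ h4.1
    rw [(bot_iff (notin hK hg h4.1) (by omega)).2
      (hk.resolve_left (by omega) τ h4.1 (by omega))] at h1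
    simp [h3] at h1
  · simp

lemma bd_ker (hK : IsCx K) (hg : Gen p K w) {k : ℕ} (hk : k ≤ 3) {c : Finset W → R}
    (hc : c ∈ Ch (s + 1) p (cone w K) k) (h0 : bd (Ph s p w c) = 0) :
    c - hm w (bd c) ∈ Ch (s + 1) p (cone w K) k ⊓ LinearMap.ker bd := by
  constructor
  · refine Submodule.sub_mem _ hc ?_
    cases k with
    | zero =>
      rw [bd_zero hc, show hm w (0 : Finset W → R) = 0 from funext fun θ => by simp [hm]]
      exact Submodule.zero_mem _
    | succ k => exact F5 hK hg (Or.inl (by omega)) (bd_mem (cone_cl hK) hc) (F3 hc ▸ h0)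
  · have := homot w (bd c)
    rw [bd_bd, show hm w (0 : Finset W → R) = 0 from funext fun θ => by simp [hm], add_zero] at this
    simp [this]

lemma BZ (hK : ∀ ψ ∈ K, ∀ θ ⊆ ψ, θ ∈ K) (k : ℕ) :
    (Ch s p K (k + 1)).map bd ≤ Ch s p K k ⊓ LinearMap.ker bd := by
  rintro _ ⟨c, hc, rfl⟩
  exact ⟨bd_mem hK hc, bd_bd c⟩

instance finZ (k : ℕ) : Module.Finite ℝ ↥(Ch s p K k ⊓ LinearMap.ker bd) :=
  Submodule.finiteDimensional_of_le inf_le_left

lemma key (hK : IsCx K) (hw : ∀ ψ ∈ K, w ∉ ψ) (hg : Gen p K w) {k : ℕ} (hk : k ≤ 3) :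
    betti s p K k + finrank ℝ ↥(Ch (s + 1) p (cone w K) k ⊓ LinearMap.ker bd ⊓
      LinearMap.ker (Ph s p w)) = betti (s + 1) p (cone w K) k +
      finrank ℝ ↥((Ch (s + 1) p (cone w K) (k + 1)).map bd ⊓ LinearMap.ker (Ph s p w)) := by
  have h1 := rank_quot _ _ (BZ (s := s) (p := p) hK.2.2 k)
  have h2 := rank_quot _ _ (BZ (s := s + 1) (p := p) (cone_cl (w := w) hK) k)
  have h3 := rank_map (Ph s p w) (Ch (s + 1) p (cone w K) k ⊓ LinearMap.ker bd)
  have h4 := rank_map (Ph s p w) ((Ch (s + 1) p (cone w K) (k + 1)).map bd)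
  have e1 : (Ch (s + 1) p (cone w K) k ⊓ LinearMap.ker bd).map (Ph s p w) =
      Ch s p K k ⊓ LinearMap.ker bd := by
    apply le_antisymm
    · rintro _ ⟨c, ⟨hc, h0⟩, rfl⟩
      refine ⟨F1 hc, ?_⟩
      have h0' : bd c = 0 := h0
      simp [F3 hc, h0']
    · rintro z ⟨hz, h0⟩
      obtain ⟨c, hc, rfl⟩ := F2 hK hw hg hz
      exact ⟨_, bd_ker hK hg hk hc h0, by rw [map_sub, Ph_hm, sub_zero]⟩
  have e2 : ((Ch (s + 1) p (cone w K) (k + 1)).map bd).map (Ph s p w) =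
      (Ch s p K (k + 1)).map bd := by
    apply le_antisymm
    · rintro _ ⟨_, ⟨c, hc, rfl⟩, rfl⟩
      exact ⟨_, F1 hc, F3 hc⟩
    · rintro _ ⟨z, hz, rfl⟩
      obtain ⟨c, hc, rfl⟩ := F2 hK hw hg hz
      exact ⟨_, ⟨c, hc, rfl⟩, (F3 hc).symm⟩
  rw [e1] at h3
  rw [e2] at h4
  change betti s p K k + _ = _ at h1
  change betti (s + 1) p (cone w K) k + _ = _ at h2
  omega

lemma good (hK : IsCx K) (hw : ∀ ψ ∈ K, w ∉ ψ) (hg : Gen p K w) {k : ℕ} (hk : k ≤ 3)
    (hk' : k ≤ 2 ∨ ∀ σ ∈ K, σ.card = 3 → AffineIndependent ℝ (fun v : σ => p v)) :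
    betti s p K k = betti (s + 1) p (cone w K) k := by
  have h := key (s := s) hK hw hg hk
  have e : Ch (s + 1) p (cone w K) k ⊓ LinearMap.ker bd ⊓ LinearMap.ker (Ph s p w) =
      (Ch (s + 1) p (cone w K) (k + 1)).map bd ⊓ LinearMap.ker (Ph s p w) := by
    refine le_antisymm ?_ (inf_le_inf_right _ (BZ (cone_cl hK) k))
    rintro c ⟨⟨hc, h0⟩, h1⟩
    refine ⟨⟨_, F5 hK hg hk' hc h1, ?_⟩, h1⟩
    have := homot w c
    rwa [show bd c = 0 from h0, show hm w (0 : Finset W → R) = 0 from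
      funext fun θ => by simp [hm], add_zero] at this
  rw [e] at h
  omega

lemma bad (hK : IsCx K) (hw : ∀ ψ ∈ K, w ∉ ψ) (hg : Gen p K w) {σ : Finset W} (hσ : σ ∈ K)
    (h3 : σ.card = 3) (hd : ¬ AffineIndependent ℝ (fun v : σ => p v)) :
    betti s p K 3 ≠ betti (s + 1) p (cone w K) 3 := by
  have h := key (s := s) hK hw hg le_rfl
  have e : Ch (s + 1) p (cone w K) (3 + 1) = ⊥ := by
    rw [eq_bot_iff]
    intro c hc
    rw [Submodule.mem_bot]
    funext θ
    refine (mem_Ch.1 hc θ).2 ?_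
    rintro ⟨h1 | ⟨τ, -, h1, rfl⟩, h2⟩
    · have := hK.2.1 _ h1; omega
    · have := card_insert_le w τ; omega
  rw [e, Submodule.map_bot, bot_inf_eq, finrank_bot] at h
  rw [← bot_iff (notin hK hg hσ) h3] at hd
  obtain ⟨l, hl, h0⟩ := (Submodule.ne_bot_iff _).1 hd
  have hc : Pi.single σ (l ^ (s + 1)) ∈ Ch (s + 1) p (cone w K) 3 := by
    rw [mem_Ch]
    intro ψ
    by_cases e : ψ = σ
    · subst e
      simp only [Pi.single_eq_same]
      exact ⟨Submodule.pow_mem_pow _ (U_mono p (subset_insert w ψ) hl) _,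
        fun e => absurd ⟨Or.inl hσ, h3⟩ e⟩
    · simp [e]
  have hp : Ph s p w (Pi.single σ (l ^ (s + 1))) = 0 := by
    funext ψ
    rw [Ph_apply]
    by_cases e : ψ = σ
    · subst e
      rw [Pi.single_eq_same, D_zero (U := U p ψ) (hE p ψ _) _
        (by rw [← U_insert]; exact Submodule.pow_mem_pow _ hl _)]
      simp
    · simp [e]
  have hz := bd_ker hK hg le_rfl hc (by rw [hp, map_zero])
  have : Module.Finite ℝ ↥(Ch (s + 1) p (cone w K) 3 ⊓ LinearMap.ker bd ⊓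
    LinearMap.ker (Ph s p w)) := Submodule.finiteDimensional_of_le inf_le_left
  intro e
  have h1 : finrank ℝ ↥(Ch (s + 1) p (cone w K) 3 ⊓ LinearMap.ker bd ⊓
    LinearMap.ker (Ph s p w)) = 0 := by omega
  rw [Submodule.finrank_eq_zero, eq_bot_iff] at h1
  have h2 := congrFun ((Submodule.mem_bot ℝ).1 (h1 ⟨hz, by
    simp only [SetLike.mem_coe, LinearMap.mem_ker]; rw [map_sub, Ph_hm, hp, sub_zero]⟩)) σ
  simp [hm, hw σ hσ, h0] at h2

end main

theorem result :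
    (∀ (W : Type) [Fintype W] [LinearOrder W] (K : Set (Finset W)) (w : W) (p : W → Pt) (s : ℕ),
      IsCx K → (∀ ψ ∈ K, w ∉ ψ) → Gen p K w →
      (∀ k ≤ 2, betti s p K k = betti (s + 1) p (cone w K) k) ∧
      (betti s p K 3 = betti (s + 1) p (cone w K) 3 ↔ Nondeg p K)) ∧
    ∃ (K : Set (Finset (Fin 4))) (p : Fin 4 → Pt), IsCx K ∧ (∀ ψ ∈ K, 0 ∉ ψ) ∧ Gen p K 0 ∧
      (∃ σ ∈ K, σ.card = 3) ∧ ∀ s, betti s p K 3 ≠ betti (s + 1) p (cone 0 K) 3 := by
  refine ⟨fun W _ _ K w p s hK hw hg => ⟨fun k hk => good hK hw hg (by omega) (Or.inl hk),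
    fun h σ hσ h3 => by_contra fun hd => bad hK hw hg hσ h3 hd h,
    fun h => good hK hw hg le_rfl (Or.inr h)⟩, ?_⟩
  have hK : IsCx {ψ : Finset (Fin 4) | 0 ∉ ψ} := by
    refine ⟨by simp, ?_, fun ψ h θ hθ e => h (hθ e)⟩
    simp only [Set.mem_ofPred_eq]; decide
  have hg : Gen (fun v : Fin 4 => if v = 0 then 1 else 0) {ψ : Finset (Fin 4) | 0 ∉ ψ} 0 := by
    intro S hS _ h
    have := affineSpan_mono ℝ (s₂ := {(0 : Pt)}) (by
      rintro _ ⟨v, hv, rfl⟩
      have := hS v hv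
      simp only [Set.mem_ofPred_eq, mem_singleton] at this
      simp [Ne.symm this]) h
    simp at this
  refine ⟨_, _, hK, fun _ h => h, hg, ⟨{1, 2, 3}, by simp, by simp⟩, fun s =>
    bad hK (fun _ h => h) hg (σ := {1, 2, 3}) (by simp) (by simp) fun h => ?_⟩
  have := h.injective (a₁ := ⟨1, by simp⟩) (a₂ := ⟨2, by simp⟩) (by simp)
  simp at this

end Pool.Agent.Results.MP_9cf723_co.Cone
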